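import Mathlib
import Pool.Agent.Helper52.CKN.Main

set_option autoImplicit false

open MeasureTheory InnerProductSpace Laplacian Filter Topology ENNReal

namespace Pool.Agent.Results.MP_d4321b_an.ConstantSign

/-- Test functions: `C²` functions with compact support contained in `ℝⁿ ∖ {0}`. -/
def IsTest {n : ℕ} (φ : EuclideanSpace ℝ (Fin n) → ℝ) : Prop :=
  ContDiff ℝ 2 φ ∧ HasCompactSupport φ ∧ (0 : EuclideanSpace ℝ (Fin n)) ∉ tsupport φ

/-- The energy `‖φ‖²_{2,α} = ∫ |x|^α |Δφ|² dx`. -/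
noncomputable def energy {n : ℕ} (α : ℝ) (φ : EuclideanSpace ℝ (Fin n) → ℝ) : ℝ≥0∞ :=
  ∫⁻ x, ENNReal.ofReal (‖x‖ ^ α * (Δ φ x) ^ 2)

/-- `u` is the element of the completion `N²(α)` given by the sequence `φ`: the `φ k` are test
functions, they form a Cauchy sequence for `‖·‖_{2,α}`, and they converge to `u` in `L¹` on every
compact subset of `ℝⁿ ∖ {0}`. -/
structure Represents {n : ℕ} (α : ℝ) (φ : ℕ → EuclideanSpace ℝ (Fin n) → ℝ)
    (u : EuclideanSpace ℝ (Fin n) → ℝ) : Prop where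
  test : ∀ k, IsTest (φ k)
  cauchy : ∀ ε : ℝ≥0∞, 0 < ε → ∃ N, ∀ k ≥ N, ∀ l ≥ N, energy α (φ k - φ l) < ε
  meas : AEStronglyMeasurable u volume
  lim : ∀ K : Set (EuclideanSpace ℝ (Fin n)), IsCompact K → (0 : EuclideanSpace ℝ (Fin n)) ∉ K →
    Tendsto (fun k => ∫⁻ x in K, ‖φ k x - u x‖ₑ) atTop (𝓝 0)

/-- `u` belongs to `N²(α)` and `‖u‖²_{2,α} = e`. -/
def HasEnergy {n : ℕ} (α : ℝ) (u : EuclideanSpace ℝ (Fin n) → ℝ) (e : ℝ≥0∞) : Prop :=
  ∃ φ, Represents α φ u ∧ Tendsto (fun k => energy α (φ k)) atTop (𝓝 e)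

/-- The exponent `β = n - q (n - 4 + α) / 2`. -/
noncomputable def beta (n : ℕ) (α q : ℝ) : ℝ := n - q * ((n - 4 + α) / 2)

/-- `∫ |x|^{-β} |u|^q dx`. -/
noncomputable def weightedInt {n : ℕ} (α q : ℝ) (u : EuclideanSpace ℝ (Fin n) → ℝ) : ℝ≥0∞ :=
  ∫⁻ x, ENNReal.ofReal (‖x‖ ^ (-beta n α q) * |u x| ^ q)

/-- The best constant `S_q(α)`: the infimum of `‖v‖²_{2,α} / (∫ |x|^{-β} |v|^q)^{2/q}` over the
nonzero elements `v` of `N²(α)`. -/
noncomputable def bestConst (n : ℕ) (α q : ℝ) : ℝ≥0∞ :=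
  ⨅ (v : EuclideanSpace ℝ (Fin n) → ℝ) (e : ℝ≥0∞) (_ : HasEnergy α v e) (_ : ¬ v =ᵐ[volume] 0),
    e / weightedInt α q v ^ (2 / q)

/-- `u` is an extremal for `S_q(α)`. -/
def IsExtremal (n : ℕ) (α q : ℝ) (u : EuclideanSpace ℝ (Fin n) → ℝ) : Prop :=
  ¬ u =ᵐ[volume] 0 ∧ weightedInt α q u ≠ ∞ ∧
    ∃ e : ℝ≥0∞, HasEnergy α u e ∧ e / weightedInt α q u ^ (2 / q) = bestConst n α q

open Pool.Agent.Helper52.CKN

theorem energy_eq {n : ℕ} (α : ℝ) (φ : E n → ℝ) : energy α φ = wsq α (Δ φ) := rfl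

theorem lap_sub {n : ℕ} {φ ψ : E n → ℝ} (hφ : IsTest φ) (hψ : IsTest ψ) :
    Δ (φ - ψ) = fun x => Δ φ x - Δ ψ x := by
  funext x
  exact hφ.1.contDiffAt.laplacian_sub hψ.1.contDiffAt

theorem ae_zero_of_wsq {n : ℕ} (hn : 3 ≤ n) {α : ℝ} {h : E n → ℝ} (hm : AEMeasurable h)
    (hw : wsq α h = 0) : h =ᵐ[volume] 0 := by
  unfold wsq at hw
  have hmm : AEMeasurable (fun x : E n => ENNReal.ofReal (‖x‖ ^ α * h x ^ 2)) := by
    apply AEMeasurable.ennreal_ofReal
    apply AEMeasurable.mul _ (hm.pow_const 2)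
    apply Measurable.aemeasurable; fun_prop
  rw [lintegral_eq_zero_iff' hmm] at hw
  filter_upwards [hw, ae_ne hn 0] with x hx hx0
  have hx1 : 0 < ‖x‖ := norm_pos_iff.mpr hx0
  have h1 : ‖x‖ ^ α * h x ^ 2 ≤ 0 := ENNReal.ofReal_eq_zero.mp hx
  have h2 : 0 < ‖x‖ ^ α := by positivity
  have h3 : h x ^ 2 ≤ 0 := by
    by_contra hcon
    push Not at hcon
    have := mul_pos h2 hcon
    linarith
  have h4 : h x ^ 2 = 0 := le_antisymm h3 (sq_nonneg _)
  simpa using h4

/-- Every element of `N²(α)` is minus a Newtonian potential. -/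
theorem repr_of_hasEnergy {n : ℕ} (hn : 3 ≤ n) {α : ℝ} (h1 : 4 - (n : ℝ) < α) (h2 : α < n)
    {u : E n → ℝ} {e : ℝ≥0∞} (h : HasEnergy α u e) :
    ∃ f : E n → ℝ, AEMeasurable f ∧ wsq α f < ∞ ∧ e = wsq α f ∧
      u =ᵐ[volume] fun x => -(kap n)⁻¹ * pot f x := by
  obtain ⟨φ, hφ, he⟩ := h
  have htest : ∀ k, TestFn (φ k) := hφ.test
  have hcau : ∀ ε : ℝ≥0∞, 0 < ε → ∃ N, ∀ k ≥ N, ∀ l ≥ N,
      wsq α (fun x => Δ (φ k) x - Δ (φ l) x) < ε := by
    intro ε hε
    obtain ⟨N, hN⟩ := hφ.cauchy ε hε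
    refine ⟨N, fun k hk l hl => ?_⟩
    have := hN k hk l hl
    rw [energy_eq, lap_sub (hφ.test k) (hφ.test l)] at this
    exact this
  obtain ⟨f, hfm, hfw, hlim, hen⟩ := exists_limit hn htest hcau
  refine ⟨f, hfm, hfw, tendsto_nhds_unique he hen, ?_⟩
  apply ae_eq_of_tendsto hn (fun k => (htest k).1.continuous) hφ.meas
  · exact (pot_aestronglyMeasurable hfm).const_mul _
  · exact hφ.lim
  · intro K hK _
    exact test_tendsto hn h1 h2 hfm hfw htest hlim hK

/-- Every Newtonian potential of a function in the weighted `L²` space is in `N²(α)`. -/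
theorem hasEnergy_pot {n : ℕ} (hn : 3 ≤ n) {α : ℝ} (h1 : 4 - (n : ℝ) < α) (h2 : α < n)
    {f : E n → ℝ} (hfm : AEMeasurable f) (hfw : wsq α f < ∞) :
    HasEnergy α (fun x => -(kap n)⁻¹ * pot f x) (wsq α f) := by
  have happ : ∀ k : ℕ, ∃ φ : E n → ℝ, TestFn φ ∧ wsq α (fun x => Δ φ x - f x) ≤
      ENNReal.ofReal (1 / ((k : ℝ) + 1)) := fun k =>
    exists_test_approx hn h1 h2 hfm hfw (by positivity)
  choose φ hφ hle using happ
  have h0 : Tendsto (fun k : ℕ => ENNReal.ofReal (1 / ((k : ℝ) + 1))) atTop (𝓝 0) := by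
    have := ENNReal.tendsto_ofReal (tendsto_one_div_add_atTop_nhds_zero_nat (𝕜 := ℝ))
    simpa using this
  have hlim : Tendsto (fun k => wsq α (fun x => Δ (φ k) x - f x)) atTop (𝓝 0) :=
    tendsto_of_tendsto_of_tendsto_of_le_of_le tendsto_const_nhds h0 (fun _ => zero_le) hle
  have hm : ∀ k, AEMeasurable (fun x => Δ (φ k) x - f x) := fun k =>
    (lap_continuous (hφ k).1).aemeasurable.sub hfm
  have hpair : ∀ k l, wsq α (fun x => Δ (φ k) x - Δ (φ l) x) ≤
      2 * wsq α (fun x => Δ (φ k) x - f x) + 2 * wsq α (fun x => Δ (φ l) x - f x) := by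
    intro k l
    have e1 := wsq_add_le α (f := fun x => Δ (φ k) x - f x) (g := fun x => -(Δ (φ l) x - f x)) (hm k)
    have e2 : wsq α (fun x => -(Δ (φ l) x - f x)) = wsq α (fun x => Δ (φ l) x - f x) := by
      unfold wsq
      congr 1
      funext x
      rw [neg_sq]
    rw [e2] at e1
    refine le_trans (le_of_eq ?_) e1
    congr 1
    funext x
    ring
  have hcau : ∀ ε : ℝ≥0∞, 0 < ε → ∃ N, ∀ k ≥ N, ∀ l ≥ N,
      wsq α (fun x => Δ (φ k) x - Δ (φ l) x) < ε := by
    intro ε hε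
    have h3 : Tendsto (fun k => 4 * wsq α (fun x => Δ (φ k) x - f x)) atTop (𝓝 0) := by
      have := ENNReal.Tendsto.const_mul (a := 4) hlim (Or.inr (by norm_num))
      simpa using this
    obtain ⟨N, hN⟩ := eventually_atTop.mp (h3.eventually_lt_const hε)
    refine ⟨N, fun k hk l hl => lt_of_le_of_lt (hpair k l) ?_⟩
    rcases le_total (wsq α (fun x => Δ (φ k) x - f x)) (wsq α (fun x => Δ (φ l) x - f x)) with h | h
    · refine lt_of_le_of_lt ?_ (hN l hl)
      have h4 : (4 : ℝ≥0∞) = 2 + 2 := by norm_num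
      rw [h4, add_mul]
      exact add_le_add (mul_le_mul' le_rfl h) le_rfl
    · refine lt_of_le_of_lt ?_ (hN k hk)
      have h4 : (4 : ℝ≥0∞) = 2 + 2 := by norm_num
      rw [h4, add_mul]
      exact add_le_add le_rfl (mul_le_mul' le_rfl h)
  obtain ⟨f', hfm', hfw', hlim', hen'⟩ := exists_limit hn hφ hcau
  have hff : wsq α f' = wsq α f := by
    have hz : wsq α (fun x => f' x - f x) = 0 := by
      have hb : ∀ k, wsq α (fun x => f' x - f x) ≤
          2 * wsq α (fun x => Δ (φ k) x - f x) + 2 * wsq α (fun x => Δ (φ k) x - f' x) := by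
        intro k
        have e1 := wsq_add_le α (f := fun x => Δ (φ k) x - f x) (g := fun x => -(Δ (φ k) x - f' x)) (hm k)
        have e2 : wsq α (fun x => -(Δ (φ k) x - f' x)) = wsq α (fun x => Δ (φ k) x - f' x) := by
          unfold wsq
          congr 1
          funext x
          rw [neg_sq]
        rw [e2] at e1
        refine le_trans (le_of_eq ?_) e1
        congr 1
        funext x
        ring
      have h3 : Tendsto (fun k => 2 * wsq α (fun x => Δ (φ k) x - f x) +
          2 * wsq α (fun x => Δ (φ k) x - f' x)) atTop (𝓝 (2 * 0 + 2 * 0)) :=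
        (ENNReal.Tendsto.const_mul hlim (Or.inr (by norm_num))).add
          (ENNReal.Tendsto.const_mul hlim' (Or.inr (by norm_num)))
      have h4 := ge_of_tendsto' h3 hb
      simpa using h4
    have hae := ae_zero_of_wsq hn (hfm'.sub hfm) hz
    unfold wsq
    apply lintegral_congr_ae
    filter_upwards [hae] with x hx
    have : f' x - f x = 0 := hx
    have h5 : f' x = f x := by linarith
    rw [h5]
  refine ⟨φ, ⟨hφ, ?_, ?_, ?_⟩, ?_⟩
  · intro ε hε
    obtain ⟨N, hN⟩ := hcau ε hε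
    refine ⟨N, fun k hk l hl => ?_⟩
    rw [energy_eq, lap_sub (hφ k) (hφ l)]
    exact hN k hk l hl
  · exact (pot_aestronglyMeasurable hfm).const_mul _
  · intro K hK _
    exact test_tendsto hn h1 h2 hfm hfw hφ hlim hK
  · rw [← hff]
    exact hen'

theorem weightedInt_mono {n : ℕ} {α q : ℝ} (hq : 0 < q) {u v : E n → ℝ}
    (h : ∀ᵐ x : E n, |u x| ≤ v x) : weightedInt α q u ≤ weightedInt α q v := by
  unfold weightedInt
  apply lintegral_mono_ae
  filter_upwards [h] with x hx
  apply ENNReal.ofReal_le_ofReal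
  have h0 : 0 ≤ v x := le_trans (abs_nonneg _) hx
  rw [abs_of_nonneg h0]
  exact mul_le_mul_of_nonneg_left (Real.rpow_le_rpow (abs_nonneg _) hx hq.le)
    (Real.rpow_nonneg (norm_nonneg _) _)

theorem aem_weight {n : ℕ} {α q : ℝ} {u : E n → ℝ} (hu : AEMeasurable u) :
    AEMeasurable (fun x : E n => ENNReal.ofReal (‖x‖ ^ (-beta n α q) * |u x| ^ q)) := by
  apply AEMeasurable.ennreal_ofReal
  apply AEMeasurable.mul
  · apply Measurable.aemeasurable; fun_prop
  · exact hu.abs.pow_const q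

/-- If `|∫ g| = ∫ |g|` then `g` has constant sign almost everywhere. -/
theorem sign_of_abs_integral_eq {n : ℕ} {g : E n → ℝ} (hg : Integrable g)
    (h : |∫ y, g y| = ∫ y, |g y|) : (∀ᵐ y : E n, 0 ≤ g y) ∨ (∀ᵐ y : E n, g y ≤ 0) := by
  rcases le_total 0 (∫ y, g y) with h0 | h0
  · left
    rw [abs_of_nonneg h0] at h
    have h1 : ∫ y, (|g y| - g y) = 0 := by
      rw [integral_sub hg.abs hg, ← h, sub_self]
    rw [integral_eq_zero_iff_of_nonneg (fun y => sub_nonneg.mpr (le_abs_self _)) (hg.abs.sub hg)] at h1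
    filter_upwards [h1] with y hy
    have : |g y| - g y = 0 := hy
    have h2 : g y = |g y| := by linarith
    rw [h2]
    exact abs_nonneg _
  · right
    rw [abs_of_nonpos h0] at h
    have h1 : ∫ y, (|g y| + g y) = 0 := by
      rw [integral_add hg.abs hg, ← h, neg_add_cancel]
    have hnn : (0 : E n → ℝ) ≤ fun y => |g y| + g y := by
      intro y
      have := neg_abs_le (g y)
      show 0 ≤ |g y| + g y
      linarith
    have hii : Integrable (fun y => |g y| + g y) := hg.abs.add hg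
    rw [integral_eq_zero_iff_of_nonneg hnn hii] at h1
    filter_upwards [h1] with y hy
    have : |g y| + g y = 0 := hy
    have h2 : g y = -|g y| := by linarith
    rw [h2]
    exact neg_nonpos.mpr (abs_nonneg _)

/-- Positivity of the potential of a nonnegative nonzero function. -/
theorem pot_pos {n : ℕ} (hn : 3 ≤ n) {f : E n → ℝ} (hf0 : ∀ᵐ y : E n, 0 ≤ f y)
    (hne : ¬ f =ᵐ[volume] 0) {x : E n} (hint : Integrable (fun y => ker x y * f y)) : 0 < pot f x := by
  unfold pot
  have h0 : 0 ≤ᵐ[volume] fun y => ker x y * f y := by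
    filter_upwards [hf0] with y hy
    exact mul_nonneg (ker_nonneg x y) hy
  refine lt_of_le_of_ne (integral_nonneg_of_ae h0) (fun hz => hne ?_)
  rw [eq_comm, integral_eq_zero_iff_of_nonneg_ae h0 hint] at hz
  filter_upwards [hz, ae_ne hn x] with y hy hyx
  have h1 : ker x y * f y = 0 := hy
  rcases mul_eq_zero.mp h1 with h2 | h2
  · exfalso
    have h3 : 0 < ‖x - y‖ := norm_pos_iff.mpr (sub_ne_zero.mpr (Ne.symm hyx))
    have h4 : 0 < ker x y := Real.rpow_pos_of_pos h3 _
    linarith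
  · exact h2

/-- **Main theorem.** Every extremal of `S_q(α)` has constant sign. -/
theorem result (n : ℕ) (hn : 3 ≤ n) (α q : ℝ) (hα : 4 - (n : ℝ) < α ∧ α < n) (hq : 2 < q)
    (hq' : 5 ≤ n → q ≤ 2 * n / ((n : ℝ) - 4)) (u : EuclideanSpace ℝ (Fin n) → ℝ)
    (hu : IsExtremal n α q u) : (∀ᵐ x, 0 < u x) ∨ (∀ᵐ x, u x < 0) := by
  obtain ⟨hα1, hα2⟩ := hα
  obtain ⟨hu0, hIfin, e, he, hmin⟩ := hu
  obtain ⟨f, hfm, hfw, hef, huf⟩ := repr_of_hasEnergy hn hα1 hα2 he
  have hκ := kap_pos hn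
  have hκi : 0 < (kap n)⁻¹ := by positivity
  -- the competitor
  set g : E n → ℝ := fun x => -|f x| with hg
  have hgm : AEMeasurable g := hfm.abs.neg
  have hgw : wsq α g = wsq α f := by
    unfold wsq
    congr 1
    funext x
    rw [hg]
    simp only
    rw [neg_sq, sq_abs]
  set v : E n → ℝ := fun x => -(kap n)⁻¹ * pot g x with hv
  have hvE : HasEnergy α v (wsq α f) := by
    rw [← hgw]
    exact hasEnergy_pot hn hα1 hα2 hgm (by rw [hgw]; exact hfw)
  have hvm : AEStronglyMeasurable v volume := (pot_aestronglyMeasurable hgm).const_mul _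
  have hum : AEStronglyMeasurable u volume := by
    obtain ⟨φ, hφ, -⟩ := he
    exact hφ.meas
  have hint := ae_lintegral_lt_top hn hα1 hα2 hfm hfw
  have hvx : ∀ x, v x = (kap n)⁻¹ * ∫ y, ker x y * |f y| := by
    intro x
    simp only [hv, hg]
    unfold pot
    have : (fun y => ker x y * -|f y|) = fun y => -(ker x y * |f y|) := by
      funext y; ring
    rw [this, integral_neg]
    ring
  have habs : ∀ᵐ x : E n, |u x| ≤ v x := by
    filter_upwards [huf, hint] with x hx hi
    rw [hx, hvx, abs_mul, abs_neg, abs_of_pos hκi]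
    apply mul_le_mul_of_nonneg_left _ hκi.le
    unfold pot
    refine le_trans (abs_integral_le_integral_abs) ?_
    apply le_of_eq
    congr 1
    funext y
    rw [abs_mul, abs_of_nonneg (ker_nonneg x y)]
  -- `f` is not zero
  have hfne : ¬ f =ᵐ[volume] 0 := by
    intro hf0
    apply hu0
    filter_upwards [huf] with x hx
    rw [hx]
    have : pot f x = 0 := by
      unfold pot
      rw [integral_eq_zero_of_ae]
      filter_upwards [hf0] with y hy
      rw [hy]; simp
    rw [this]; simp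
  have he0 : e ≠ 0 := by
    intro h
    rw [h] at hef
    exact hfne (ae_zero_of_wsq hn hfm hef.symm)
  have hetop : e ≠ ∞ := by rw [hef]; exact hfw.ne
  have hv0 : ¬ v =ᵐ[volume] 0 := by
    intro h
    apply hu0
    filter_upwards [habs, h] with x h3 h4
    rw [h4] at h3
    simpa using h3
  -- minimality
  have hle : e / weightedInt α q u ^ (2 / q) ≤ e / weightedInt α q v ^ (2 / q) := by
    rw [hmin]
    unfold bestConst
    refine iInf_le_of_le v (iInf_le_of_le e (iInf_le_of_le ?_ (iInf_le_of_le hv0 le_rfl)))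
    rw [hef]
    exact hvE
  have hmono : weightedInt α q u ≤ weightedInt α q v := weightedInt_mono (by linarith) habs
  have hq2 : 0 < 2 / q := by positivity
  have hIu0 : weightedInt α q u ≠ 0 := by
    intro h0
    unfold weightedInt at h0
    rw [lintegral_eq_zero_iff' (aem_weight hum.aemeasurable)] at h0
    apply hu0
    filter_upwards [h0, ae_ne hn 0] with x hx hx0
    have hx1 : 0 < ‖x‖ := norm_pos_iff.mpr hx0
    have h1 : ‖x‖ ^ (-beta n α q) * |u x| ^ q ≤ 0 := ENNReal.ofReal_eq_zero.mp hx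
    have h2 : 0 < ‖x‖ ^ (-beta n α q) := by positivity
    by_contra hne
    have h3 : 0 < |u x| := abs_pos.mpr hne
    have h4 : 0 < |u x| ^ q := by positivity
    have := mul_pos h2 h4
    linarith
  have hle2 : weightedInt α q v ≤ weightedInt α q u := by
    have h3 : e * (weightedInt α q u ^ (2 / q))⁻¹ ≤ e * (weightedInt α q v ^ (2 / q))⁻¹ := hle
    rw [ENNReal.mul_le_mul_iff_right he0 hetop, ENNReal.inv_le_inv,
      ENNReal.rpow_le_rpow_iff hq2] at h3
    exact h3
  have heq : weightedInt α q u = weightedInt α q v := le_antisymm hmono hle2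
  -- equality almost everywhere
  have hae : ∀ᵐ x : E n, |u x| = v x := by
    have h5 : (fun x : E n => ENNReal.ofReal (‖x‖ ^ (-beta n α q) * |u x| ^ q)) =ᵐ[volume]
        fun x => ENNReal.ofReal (‖x‖ ^ (-beta n α q) * |v x| ^ q) := by
      apply ae_eq_of_ae_le_of_lintegral_le _ _ (aem_weight hvm.aemeasurable)
      · exact heq.symm.le
      · filter_upwards [habs] with x hx
        apply ENNReal.ofReal_le_ofReal
        have h0 : 0 ≤ v x := le_trans (abs_nonneg _) hx
        rw [abs_of_nonneg h0]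
        exact mul_le_mul_of_nonneg_left (Real.rpow_le_rpow (abs_nonneg _) hx (by linarith))
          (Real.rpow_nonneg (norm_nonneg _) _)
      · exact hIfin
    filter_upwards [h5, habs, ae_ne hn 0] with x hx hx2 hx0
    have hx1 : 0 < ‖x‖ := norm_pos_iff.mpr hx0
    have h0 : 0 ≤ v x := le_trans (abs_nonneg _) hx2
    have hw : 0 < ‖x‖ ^ (-beta n α q) := by positivity
    rw [ENNReal.ofReal_eq_ofReal_iff (by positivity) (by positivity)] at hx
    have h6 := mul_left_cancel₀ hw.ne' hx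
    rw [abs_of_nonneg h0] at h6
    exact (Real.rpow_left_inj (abs_nonneg _) h0 (by linarith)).mp h6
  -- pick one good point
  have hne : (volume : Measure (E n)) ≠ 0 := by
    have := nontrivial_E hn
    exact NeZero.ne volume
  have : NeZero (volume : Measure (E n)) := ⟨hne⟩
  obtain ⟨x0, hx1, hx2, hx3⟩ := (hae.and (huf.and hint)).exists
  have hsign : (∀ᵐ y : E n, 0 ≤ ker x0 y * f y) ∨ (∀ᵐ y : E n, ker x0 y * f y ≤ 0) := by
    apply sign_of_abs_integral_eq hx3
    rw [hx2, hvx, abs_mul, abs_neg, abs_of_pos hκi] at hx1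
    have := mul_left_cancel₀ hκi.ne' hx1
    unfold pot at this
    rw [this]
    congr 1
    funext y
    rw [abs_mul, abs_of_nonneg (ker_nonneg x0 y)]
  have hkpos : ∀ᵐ y : E n, 0 < ker x0 y := by
    filter_upwards [ae_ne hn x0] with y hyx
    have h3 : 0 < ‖x0 - y‖ := norm_pos_iff.mpr (sub_ne_zero.mpr (Ne.symm hyx))
    exact Real.rpow_pos_of_pos h3 _
  rcases hsign with h | h
  · right
    have hf0 : ∀ᵐ y : E n, 0 ≤ f y := by
      filter_upwards [h, hkpos] with y hy hk
      exact nonneg_of_mul_nonneg_right hy hk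
    filter_upwards [huf, hint] with x hx hi
    have := pot_pos hn hf0 hfne hi
    rw [hx]
    have : 0 < (kap n)⁻¹ * pot f x := by positivity
    linarith
  · left
    have hf0 : ∀ᵐ y : E n, 0 ≤ -f y := by
      filter_upwards [h, hkpos] with y hy hk
      have h7 : 0 ≤ ker x0 y * -f y := by linarith
      exact nonneg_of_mul_nonneg_right h7 hk
    have hfne' : ¬ (fun y => -f y) =ᵐ[volume] 0 := by
      intro h8
      apply hfne
      filter_upwards [h8] with y hy
      have : -f y = 0 := hy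
      show f y = 0
      linarith
    filter_upwards [huf, hint] with x hx hi
    have hi' : Integrable (fun y => ker x y * -f y) := by
      have : (fun y => ker x y * -f y) = fun y => -(ker x y * f y) := by funext y; ring
      rw [this]
      exact hi.neg
    have h9 := pot_pos hn hf0 hfne' hi'
    have h10 : pot (fun y => -f y) x = -pot f x := by
      unfold pot
      rw [← integral_neg]
      congr 1
      funext y
      ring
    rw [h10] at h9
    rw [hx]
    have : 0 < (kap n)⁻¹ * (-pot f x) := by positivity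
    linarith

end Pool.Agent.Results.MP_d4321b_an.ConstantSign
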