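import Mathlib
import Pool.Agent.NRX.Main

set_option autoImplicit false

open MeasureTheory InnerProductSpace Laplacian Filter Topology ENNReal

namespace Pool.Agent.Results.MP_d4321b_an.NonradialExtremals

/-- Test functions: `C²` functions with compact support contained in `ℝⁿ ∖ {0}`. -/
def IsTest {n : ℕ} (φ : EuclideanSpace ℝ (Fin n) → ℝ) : Prop :=
  ContDiff ℝ 2 φ ∧ HasCompactSupport φ ∧ (0 : EuclideanSpace ℝ (Fin n)) ∉ tsupport φ

/-- The energy `‖φ‖²_{2,α} = ∫ |x|^α |Δφ|² dx`. -/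
noncomputable def energy {n : ℕ} (α : ℝ) (φ : EuclideanSpace ℝ (Fin n) → ℝ) : ℝ≥0∞ :=
  ∫⁻ x, ENNReal.ofReal (‖x‖ ^ α * (Δ φ x) ^ 2)

/-- `u` is the element of the completion `N²(α)` given by the sequence `φ`: the `φ k` are test
functions, they form a Cauchy sequence for `‖·‖_{2,α}`, and they converge to `u` in `L¹` on every
compact subset of `ℝⁿ ∖ {0}`. -/
structure Represents {n : ℕ} (α : ℝ) (φ : ℕ → EuclideanSpace ℝ (Fin n) → ℝ)
    (u : EuclideanSpace ℝ (Fin n) → ℝ) : Prop where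
  test : ∀ k, IsTest (φ k)
  cauchy : ∀ ε : ℝ≥0∞, 0 < ε → ∃ N, ∀ k ≥ N, ∀ l ≥ N, energy α (φ k - φ l) < ε
  meas : AEStronglyMeasurable u volume
  lim : ∀ K : Set (EuclideanSpace ℝ (Fin n)), IsCompact K → (0 : EuclideanSpace ℝ (Fin n)) ∉ K →
    Tendsto (fun k => ∫⁻ x in K, ‖φ k x - u x‖ₑ) atTop (𝓝 0)

/-- `u` belongs to `N²(α)` and `‖u‖²_{2,α} = e`. -/
def HasEnergy {n : ℕ} (α : ℝ) (u : EuclideanSpace ℝ (Fin n) → ℝ) (e : ℝ≥0∞) : Prop :=
  ∃ φ, Represents α φ u ∧ Tendsto (fun k => energy α (φ k)) atTop (𝓝 e)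

/-- The exponent `β = n - q (n - 4 + α) / 2`. -/
noncomputable def beta (n : ℕ) (α q : ℝ) : ℝ := n - q * ((n - 4 + α) / 2)

/-- `∫ |x|^{-β} |u|^q dx`. -/
noncomputable def weightedInt {n : ℕ} (α q : ℝ) (u : EuclideanSpace ℝ (Fin n) → ℝ) : ℝ≥0∞ :=
  ∫⁻ x, ENNReal.ofReal (‖x‖ ^ (-beta n α q) * |u x| ^ q)

/-- The best constant `S_q(α)`: the infimum of `‖v‖²_{2,α} / (∫ |x|^{-β} |v|^q)^{2/q}` over the
nonzero elements `v` of `N²(α)`. -/
noncomputable def bestConst (n : ℕ) (α q : ℝ) : ℝ≥0∞ :=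
  ⨅ (v : EuclideanSpace ℝ (Fin n) → ℝ) (e : ℝ≥0∞) (_ : HasEnergy α v e) (_ : ¬ v =ᵐ[volume] 0),
    e / weightedInt α q v ^ (2 / q)

/-- `u` is an extremal for `S_q(α)`. -/
def IsExtremal (n : ℕ) (α q : ℝ) (u : EuclideanSpace ℝ (Fin n) → ℝ) : Prop :=
  ¬ u =ᵐ[volume] 0 ∧ weightedInt α q u ≠ ∞ ∧
    ∃ e : ℝ≥0∞, HasEnergy α u e ∧ e / weightedInt α q u ^ (2 / q) = bestConst n α q

/-- `u` is radially symmetric: almost everywhere `u(x)` depends only on `|x|`. -/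
def IsRadial {n : ℕ} (u : EuclideanSpace ℝ (Fin n) → ℝ) : Prop :=
  ∃ g : ℝ → ℝ, u =ᵐ[volume] fun x => g ‖x‖

theorem represents_iff {n : ℕ} (α : ℝ) (φ : ℕ → EuclideanSpace ℝ (Fin n) → ℝ)
    (u : EuclideanSpace ℝ (Fin n) → ℝ) : Represents α φ u ↔ NRX.Represents α φ u :=
  ⟨fun h => ⟨h.test, h.cauchy, h.meas, h.lim⟩, fun h => ⟨h.test, h.cauchy, h.meas, h.lim⟩⟩

theorem hasEnergy_iff {n : ℕ} (α : ℝ) (u : EuclideanSpace ℝ (Fin n) → ℝ) (e : ℝ≥0∞) :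
    HasEnergy α u e ↔ NRX.HasEnergy α u e := by
  constructor
  · rintro ⟨φ, h1, h2⟩
    exact ⟨φ, (represents_iff α φ u).mp h1, h2⟩
  · rintro ⟨φ, h1, h2⟩
    exact ⟨φ, (represents_iff α φ u).mpr h1, h2⟩

theorem bestConst_eq (n : ℕ) (α q : ℝ) : bestConst n α q = NRX.bestConst n α q := by
  unfold bestConst NRX.bestConst
  congr 1
  funext v
  congr 1
  funext e
  have h : HasEnergy α v e = NRX.HasEnergy α v e := propext (hasEnergy_iff α v e)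
  rw [h]
  rfl

theorem isExtremal_iff (n : ℕ) (α q : ℝ) (u : EuclideanSpace ℝ (Fin n) → ℝ) :
    IsExtremal n α q u ↔ NRX.IsExtremal n α q u := by
  unfold IsExtremal NRX.IsExtremal
  rw [bestConst_eq]
  constructor
  · rintro ⟨h1, h2, e, h3, h4⟩
    exact ⟨h1, h2, e, (hasEnergy_iff α u e).mp h3, h4⟩
  · rintro ⟨h1, h2, e, h3, h4⟩
    exact ⟨h1, h2, e, (hasEnergy_iff α u e).mpr h3, h4⟩

/-- **Main theorem.** (1) For all `n ≥ 3`, `α ∈ (4-n, n)` and `q > 2` (with `q < 2n/(n-4)` if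
`n ≥ 5`) an extremal for `S_q(α)` exists. (2) If moreover
`q - 1 > (1 + (n-1)/γ)²`, `γ = (n-4+α)(n-α)/4`, then no extremal is radially symmetric (here
`q = 2n/(n-4)` is also allowed). (3) For `n = 3`, `α = 2` and every `q > 82`, for `n = 4`, `α = 2`
and every `q > 17`, and for `n = 5`, `α = 2` and every `q ∈ (9, 10)` there is an extremal, and none
is radially symmetric. -/
theorem result :
    (∀ (n : ℕ) (α q : ℝ), 3 ≤ n → 4 - (n : ℝ) < α → α < n → 2 < q →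
      (5 ≤ n → q < 2 * n / ((n : ℝ) - 4)) → ∃ u, IsExtremal n α q u) ∧
    (∀ (n : ℕ) (α q : ℝ), 3 ≤ n → 4 - (n : ℝ) < α → α < n → 2 < q →
      (5 ≤ n → q ≤ 2 * n / ((n : ℝ) - 4)) →
      (1 + ((n : ℝ) - 1) / (((n : ℝ) - 4 + α) * ((n : ℝ) - α) / 4)) ^ 2 < q - 1 →
      ∀ u, IsExtremal n α q u → ¬ IsRadial u) ∧
    (∀ q : ℝ, 82 < q → ∃ u, IsExtremal 3 2 q u ∧ ¬ IsRadial u) ∧
    (∀ q : ℝ, 17 < q → ∃ u, IsExtremal 4 2 q u ∧ ¬ IsRadial u) ∧
    (∀ q : ℝ, 9 < q → q < 10 → ∃ u, IsExtremal 5 2 q u ∧ ¬ IsRadial u) := by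
  have h1 : ∀ (n : ℕ) (α q : ℝ), 3 ≤ n → 4 - (n : ℝ) < α → α < n → 2 < q →
      (5 ≤ n → q < 2 * n / ((n : ℝ) - 4)) → ∃ u, IsExtremal n α q u := by
    intro n α q hn ha1 ha2 hq2 hq
    have hadm : NRX.Adm n α q := by
      refine ⟨hn, ha1, ha2, hq2, ?_⟩
      by_cases h5 : 5 ≤ n
      · have hn4 : (0 : ℝ) < (n : ℝ) - 4 := by
          have : (5 : ℝ) ≤ n := by exact_mod_cast h5
          linarith
        have := hq h5
        rwa [lt_div_iff₀ hn4] at this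
      · have hn4 : (n : ℝ) - 4 ≤ 0 := by
          have : (n : ℝ) ≤ 4 := by exact_mod_cast (by omega : n ≤ 4)
          linarith
        have hn0 : (0 : ℝ) < n := by
          have : (3 : ℝ) ≤ n := by exact_mod_cast hn
          linarith
        nlinarith
    obtain ⟨u, hu⟩ := NRX.main_exists hadm
    exact ⟨u, (isExtremal_iff n α q u).mpr hu⟩
  have h2 : ∀ (n : ℕ) (α q : ℝ), 3 ≤ n → 4 - (n : ℝ) < α → α < n → 2 < q →
      (5 ≤ n → q ≤ 2 * n / ((n : ℝ) - 4)) →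
      (1 + ((n : ℝ) - 1) / (((n : ℝ) - 4 + α) * ((n : ℝ) - α) / 4)) ^ 2 < q - 1 →
      ∀ u, IsExtremal n α q u → ¬ IsRadial u := by
    intro n α q hn ha1 ha2 hq2 _ hbig u hu hrad
    have := NRX.main_radial n α q u hn ha1 ha2 hq2 ((isExtremal_iff n α q u).mp hu) hrad
    have e : NRX.gm n α = ((n : ℝ) - 4 + α) * ((n : ℝ) - α) / 4 := by
      unfold NRX.gm NRX.ea NRX.eb
      ring
    rw [e] at this
    linarith
  refine ⟨h1, h2, ?_, ?_, ?_⟩
  · intro q hq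
    obtain ⟨u, hu⟩ := h1 3 2 q le_rfl (by norm_num) (by norm_num) (by linarith) (by norm_num)
    refine ⟨u, hu, h2 3 2 q le_rfl (by norm_num) (by norm_num) (by linarith) (by norm_num) ?_ u hu⟩
    norm_num
    linarith
  · intro q hq
    obtain ⟨u, hu⟩ := h1 4 2 q (by norm_num) (by norm_num) (by norm_num) (by linarith) (by norm_num)
    refine ⟨u, hu, h2 4 2 q (by norm_num) (by norm_num) (by norm_num) (by linarith)
      (by norm_num) ?_ u hu⟩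
    norm_num
    linarith
  · intro q hq hq'
    obtain ⟨u, hu⟩ := h1 5 2 q (by norm_num) (by norm_num) (by norm_num) (by linarith)
      (fun _ => by norm_num; linarith)
    refine ⟨u, hu, h2 5 2 q (by norm_num) (by norm_num) (by norm_num) (by linarith)
      (fun _ => by norm_num; linarith) ?_ u hu⟩
    norm_num
    linarith

end Pool.Agent.Results.MP_d4321b_an.NonradialExtremals
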